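import Mathlib

open Finset

namespace Pool.Agent.Results.MP_aa79fc_nt.Inv

/-- the three letters. -/
inductive L | x | y | z
  deriving DecidableEq

variable {K : Type} [Field K]

/-- the factor of a letter `u` with summation index `n`. -/
def wt (q : K) (N : ℕ) (u : L) (a b n : ℕ) : K :=
  match u with
  | .x => 1 / (1 - q ^ (n + a))
  | .y => -1 / (1 - q ^ ((n : ℤ) - N - b))
  | .z => 1 / (1 - q ^ (n + a)) - 1 / (1 - q ^ ((n : ℤ) - N - b))

/-- `Z_{N,q}(w)`: sum over `0 ≤ n₁ ≤ ⋯ ≤ n_k ≤ N`. -/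
noncomputable def Z (q : K) (N : ℕ) (w : List L) : K :=
  ∑ n ∈ univ.filter (fun n : Fin w.length → Fin (N + 1) => Monotone n),
    ∏ j, wt q N (w.get j) ((w.take (j + 1)).count .y) ((w.drop j).count .x) (n j)

def cy (u : L) : ℕ := if u = .y then 1 else 0

def T (W : L → ℕ → ℕ → ℕ → K) (N : ℕ) : List L → ℕ → ℕ → K
  | [], _, _ => 1
  | u :: w, a, m => ∑ n ∈ Icc m N, W u (a + cy u) ((u :: w).count .x) n * T W N w (a + cy u) n

lemma mono_cons {k N : ℕ} (i : Fin (N + 1)) (n : Fin k → Fin (N + 1)) (m : ℕ) :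
    (Monotone (Fin.cons i n : Fin (k + 1) → Fin (N + 1)) ∧
      ∀ j, m ≤ ((Fin.cons i n : Fin (k + 1) → Fin (N + 1)) j : ℕ)) ↔
    m ≤ i ∧ Monotone n ∧ ∀ j, (i : ℕ) ≤ n j := by
  constructor
  · rintro ⟨h1, h2⟩
    refine ⟨h2 0, fun a b hab => ?_, fun j => ?_⟩
    · simpa using h1 (Fin.succ_le_succ_iff.2 hab)
    · simpa using h1 (Fin.zero_le j.succ)
  · rintro ⟨h1, h2, h3⟩
    refine ⟨fun a b hab => ?_, fun j => ?_⟩
    · induction a using Fin.cases with
      | zero =>
        induction b using Fin.cases with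
        | zero => exact le_rfl
        | succ b => simpa using h3 b
      | succ a =>
        induction b using Fin.cases with
        | zero => exact absurd hab (by simp)
        | succ b => simpa using h2 (Fin.succ_le_succ_iff.1 hab)
    · induction j using Fin.cases with
      | zero => simpa using h1
      | succ j => simpa using h1.trans (h3 j)

lemma sum_eq_T (W : L → ℕ → ℕ → ℕ → K) (N : ℕ) (w : List L) : ∀ a m : ℕ,
    ∑ n ∈ univ.filter (fun n : Fin w.length → Fin (N + 1) => Monotone n ∧ ∀ j, m ≤ (n j : ℕ)),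
      ∏ j, W (w.get j) (a + (w.take (j + 1)).count .y) ((w.drop j).count .x) (n j)
      = T W N w a m := by
  induction w with
  | nil =>
    intro a m
    have : (univ.filter fun n : Fin ([] : List L).length → Fin (N + 1) =>
        Monotone n ∧ ∀ j, m ≤ (n j : ℕ)) = univ :=
      Finset.filter_true_of_mem fun n _ => ⟨fun a => a.elim0, fun a => a.elim0⟩
    rw [this]
    simp [T]
  | cons u w ih =>
    intro a m
    rw [T, Finset.sum_filter]
    have e := (Fin.consEquiv fun _ : Fin (w.length + 1) => Fin (N + 1)).sum_comp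
      (fun n : Fin (w.length + 1) → Fin (N + 1) => if Monotone n ∧ ∀ j, m ≤ (n j : ℕ) then
        ∏ j : Fin (w.length + 1), W ((u :: w).get j) (a + ((u :: w).take (j + 1)).count .y)
          (((u :: w).drop j).count .x) (n j) else 0)
    refine e.symm.trans ?_
    rw [Fintype.sum_prod_type]
    have h1 : ∑ n ∈ Icc m N, W u (a + cy u) ((u :: w).count .x) n * T W N w (a + cy u) n
        = ∑ i : Fin (N + 1), if m ≤ (i : ℕ) then
          W u (a + cy u) ((u :: w).count .x) i * T W N w (a + cy u) i else 0 := by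
      rw [Fin.sum_univ_eq_sum_range (fun i => if m ≤ i then
          W u (a + cy u) ((u :: w).count .x) i * T W N w (a + cy u) i else 0), ← Finset.sum_filter]
      congr 1
      ext i
      simp only [mem_Icc, mem_filter, mem_range]
      omega
    rw [h1]
    refine Finset.sum_congr rfl fun i _ => ?_
    have hc : ∀ l : List L, a + (u :: l).count .y = a + cy u + l.count .y := by
      intro l
      rw [List.count_cons]
      unfold cy
      simp only [beq_iff_eq]
      omega
    have hce : ∀ n : Fin w.length → Fin (N + 1),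
        (Fin.consEquiv fun _ : Fin (w.length + 1) => Fin (N + 1)) (i, n) = Fin.cons i n :=
      fun _ => rfl
    simp only [hce, mono_cons, Fin.prod_univ_succ, Fin.cons_zero, Fin.cons_succ]
    split_ifs with hm
    · rw [← ih, Finset.sum_filter, Finset.mul_sum]
      refine Finset.sum_congr rfl fun n _ => ?_
      simp only [hm, true_and]
      split_ifs
      · simp [hc]
      · simp
    · simp [hm]

lemma Z_eq_T (q : K) (N : ℕ) (w : List L) : Z q N w = T (wt q N) N w 0 0 := by
  rw [← sum_eq_T]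
  simp [Z]

section
variable (p : K)

def P (s : ℕ) : K := ∏ i ∈ range s, (1 - p ^ (i + 1))

def R (j s : ℕ) : K := ∏ i ∈ range s, (1 - p ^ (j + i))

def Bn (s t : ℕ) : K := P p (s + t) / (P p s * P p t)

def G (j s b : ℕ) : K := p ^ (j * b) * R p j s * Bn p s b

def k (j s b : ℕ) : K := p ^ (j * (b + 1)) * R p (j + 1) s * Bn p s b

lemma R_succ (j s : ℕ) : R p j (s + 1) = R p j s * (1 - p ^ (j + s)) := Finset.prod_range_succ _ _

lemma R_succ' (j s : ℕ) : R p j (s + 1) = (1 - p ^ j) * R p (j + 1) s := by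
  unfold R
  rw [Finset.prod_range_succ', mul_comm]
  simp only [add_zero, add_assoc, add_comm 1]

lemma P_succ (s : ℕ) : P p (s + 1) = P p s * (1 - p ^ (s + 1)) := Finset.prod_range_succ _ _

variable {p} (hp : ∀ m : ℕ, 1 - p ^ (m + 1) ≠ 0)
include hp

lemma P_ne (s : ℕ) : P p s ≠ 0 := Finset.prod_ne_zero_iff.2 fun i _ => hp i

lemma Bn_zero (s : ℕ) : Bn p s 0 = 1 ∧ Bn p 0 s = 1 := by
  have := P_ne hp s
  have h0 : P p 0 = 1 := by simp [P]
  simp [Bn, h0, this]

lemma Bn_r (s t : ℕ) : Bn p s (t + 1) = Bn p s t * (1 - p ^ (s + t + 1)) / (1 - p ^ (t + 1)) := by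
  have := P_ne hp s
  have := P_ne hp t
  have := hp t
  unfold Bn
  rw [← add_assoc, P_succ, P_succ]
  field_simp

lemma Bn_l (s t : ℕ) : Bn p (s + 1) t = Bn p s t * (1 - p ^ (s + t + 1)) / (1 - p ^ (s + 1)) := by
  have := P_ne hp s
  have := P_ne hp t
  have := hp s
  unfold Bn
  rw [add_right_comm, P_succ, P_succ]
  field_simp

lemma LI (j s b : ℕ) :
    k p j (s + 1) b - k p j s (b + 1) = G p j (s + 1) (b + 1) - G p (j + 1) s (b + 1) := by
  have := hp s
  have := hp b
  unfold k G
  rw [R_succ p (j + 1), R_succ' p j, Bn_r hp (s + 1), Bn_l hp, Bn_r hp]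
  field_simp
  ring

omit hp in
lemma Lsucc (j s b : ℕ) : ∑ t ∈ range (s + 1 + 1), k p (j + t) (s + 1 - t) b
    = k p j (s + 1) b + ∑ t ∈ range (s + 1), k p (j + 1 + t) (s - t) b := by
  rw [Finset.sum_range_succ', add_comm]
  congr 1
  refine Finset.sum_congr rfl fun t _ => ?_
  congr 1 <;> omega

lemma Ldiff (s : ℕ) : ∀ j b : ℕ, ∑ t ∈ range (s + 1 + 1), k p (j + t) (s + 1 - t) b
    = ∑ t ∈ range (s + 1), k p (j + t) (s - t) (b + 1) + G p j (s + 1) (b + 1) := by
  induction s with
  | zero =>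
    intro j b
    have h1 := LI hp j 0 b
    have h2 : k p (j + 1) 0 b = G p (j + 1) 0 (b + 1) := by
      simp [k, G, R, (Bn_zero hp _).2]
    simp only [Finset.sum_range_succ, Finset.range_zero, Finset.sum_empty] at h1 ⊢
    simp only [zero_add, add_zero, Nat.sub_zero, Nat.sub_self] at h1 ⊢
    linear_combination h1 + h2
  | succ s ih =>
    intro j b
    rw [Lsucc j (s + 1) b, Lsucc j s (b + 1), ih (j + 1) b]
    linear_combination LI hp j (s + 1) b

lemma key (s : ℕ) : ∀ j b : ℕ, ∑ t ∈ range (s + 1), k p (j + t) (s - t) b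
    = ∑ t ∈ range (s + 1), G p j t (b + 1 + (s - t)) := by
  induction s with
  | zero => intro j b; simp [k, G, R, (Bn_zero hp _).2]
  | succ s ih =>
    intro j b
    rw [Ldiff hp, ih, Finset.sum_range_succ _ (s + 1), Nat.sub_self, add_zero]
    congr 1
    refine Finset.sum_congr rfl fun t ht => ?_
    have := Finset.mem_range.1 ht
    congr 1; omega

lemma tel (s : ℕ) : ∀ j : ℕ, ∑ t ∈ range (s + 1), k p (j + t) (s - t) 0 + R p j (s + 1) = 1 := by
  induction s with
  | zero => intro j; simp [k, R, (Bn_zero hp _).2]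
  | succ s ih =>
    intro j
    rw [Lsucc, R_succ' p j (s + 1)]
    have := ih (j + 1)
    simp only [k, (Bn_zero hp _).1] at this ⊢
    linear_combination this

lemma base (s j : ℕ) : ∑ t ∈ range (s + 1), G p j t (s - t) = 1 := by
  cases s with
  | zero => simp [G, R, (Bn_zero hp _).2]
  | succ s =>
    rw [Finset.sum_range_succ, ← tel hp s j, key hp]
    congr 1
    · refine Finset.sum_congr rfl fun t ht => ?_
      have := Finset.mem_range.1 ht
      congr 1; omega
    · simp [G, (Bn_zero hp _).1]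

omit hp in
def wA (p : K) (N : ℕ) (u : L) (a b n : ℕ) : K :=
  match u with
  | .x => p ^ (n + a) / (1 - p ^ (n + a))
  | .y => 1 / (1 - p ^ (N - n + b))
  | .z => p ^ (n + a) / (1 - p ^ (n + a)) + 1 / (1 - p ^ (N - n + b))

omit hp in
def wB (p : K) (N : ℕ) (u : L) (a b n : ℕ) : K :=
  match u with
  | .x => 1 / (1 - p ^ (n + a))
  | .y => p ^ (N - n + b) / (1 - p ^ (N - n + b))
  | .z => 1 / (1 - p ^ (n + a)) + p ^ (N - n + b) / (1 - p ^ (N - n + b))

lemma term (N : ℕ) (u : L) (w : List L) (a b i s r : ℕ) (hN : N = i + s + r)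
    (hb : (u :: w).count .x = b + 1) (ha : 1 ≤ a + cy u) :
    wA p N u (a + cy u) (b + 1) i * G p (i + (a + cy u)) s (r + w.count .x)
      = wB p N u (a + cy u) (b + 1) (i + s) * k p (i + a) s (r + b) := by
  have e1 : N - i + (b + 1) = s + (r + b) + 1 := by omega
  have e2 : N - (i + s) + (b + 1) = r + b + 1 := by omega
  have hR := (R_succ p (i + a) s).symm.trans (R_succ' p (i + a) s)
  cases u with
  | x =>
    have h1 : w.count L.x = b := by simpa using hb
    obtain ⟨c, rfl⟩ : ∃ c, a = c + 1 := ⟨a - 1, by simp [cy] at ha; omega⟩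
    have n1 : 1 - p ^ (i + (c + 1)) ≠ 0 := hp (i + c)
    have n2 : 1 - p ^ (i + s + (c + 1)) ≠ 0 := hp (i + s + c)
    simp only [wA, wB, G, k, h1, cy, reduceCtorEq, if_false, add_zero]
    field_simp
    linear_combination (p ^ (i + (c + 1)) * p ^ ((i + (c + 1)) * (r + b)) * Bn p s (r + b)) * hR
  | y =>
    have h1 : r + w.count L.x = r + b + 1 := by
      have : w.count L.x = b + 1 := by simpa using hb
      omega
    have n1 := hp (s + (r + b))
    have n2 := hp (r + b)
    simp only [wA, wB, G, k, h1, cy, if_true, e1, e2, Bn_r hp, ← add_assoc i a 1]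
    field_simp
    ring
  | z =>
    have h1 : r + w.count L.x = r + b + 1 := by
      have : w.count L.x = b + 1 := by simpa using hb
      omega
    obtain ⟨c, rfl⟩ : ∃ c, a = c + 1 := ⟨a - 1, by simp [cy] at ha; omega⟩
    have n1 : 1 - p ^ (i + (c + 1)) ≠ 0 := hp (i + c)
    have n2 : 1 - p ^ (i + s + (c + 1)) ≠ 0 := hp (i + s + c)
    have n3 := hp (s + (r + b))
    have n4 := hp (r + b)
    simp only [wA, wB, G, k, h1, cy, reduceCtorEq, if_false, add_zero, e1, e2, Bn_r hp]
    field_simp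
    linear_combination (p ^ ((i + (c + 1)) * (r + b + 1)) * Bn p s (r + b) *
      (1 - p ^ (i + (c + 1)) * p ^ (s + (r + b) + 1))) * hR

omit hp in
lemma swap (m N : ℕ) (f : ℕ → ℕ → K) :
    ∑ i ∈ Icc m N, ∑ n ∈ Icc i N, f i n = ∑ n ∈ Icc m N, ∑ i ∈ Icc m n, f i n := by
  refine Finset.sum_comm' fun i n => ?_
  simp only [mem_Icc]
  omega

omit hp in
lemma Icc_range (m n : ℕ) (h : m ≤ n) (f : ℕ → K) :
    ∑ i ∈ Icc m n, f i = ∑ t ∈ range (n - m + 1), f (m + t) := by
  rw [← Finset.Ico_add_one_right_eq_Icc, Finset.sum_Ico_eq_sum_range]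
  congr 2
  omega

lemma conn (N : ℕ) (w : List L) : (w = [] ∨ w.getLast? = some .x) →
    ∀ a m : ℕ, m ≤ N → (1 ≤ a ∨ w.head? = some .y) → T (wA p N) N w a m
      = ∑ n ∈ Icc m N, G p (m + a) (n - m) (N - n + w.count .x) * T (wB p N) N w a n := by
  induction w with
  | nil =>
    intro _ a m hm _
    rw [Icc_range m N hm, T, ← base hp (N - m) (m + a)]
    refine Finset.sum_congr rfl fun t _ => ?_
    simp only [T, mul_one, List.count_nil, add_zero]
    congr 1 <;> omega
  | cons u w ih =>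
    intro hw a m hm ha
    have hl : (u :: w).getLast? = some .x := hw.resolve_left (by simp)
    have hw' : w = [] ∨ w.getLast? = some .x := by
      cases w with
      | nil => exact Or.inl rfl
      | cons v w => exact Or.inr (by simpa using hl)
    obtain ⟨b, hb⟩ : ∃ b, (u :: w).count .x = b + 1 :=
      ⟨_, (Nat.succ_pred_eq_of_pos (List.count_pos_iff.2 (List.mem_of_getLast? hl))).symm⟩
    have ha' : 1 ≤ a + cy u := by
      rcases ha with h | h
      · omega
      · have : u = .y := by simpa using h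
        simp [cy, this]
    have l1 : T (wA p N) N (u :: w) a m = ∑ i ∈ Icc m N, ∑ n ∈ Icc i N,
        wB p N u (a + cy u) (b + 1) n * T (wB p N) N w (a + cy u) n *
          k p (i + a) (n - i) (N - n + b) := by
      rw [T]
      refine Finset.sum_congr rfl fun i hi => ?_
      rw [ih hw' _ i (mem_Icc.1 hi).2 (Or.inl ha'), Finset.mul_sum]
      refine Finset.sum_congr rfl fun n hn => ?_
      have h1 := mem_Icc.1 hn
      have := term hp N u w a b i (n - i) (N - n) (by omega) hb ha'
      rw [show i + (n - i) = n by omega] at this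
      rw [hb, ← mul_assoc, this]
      ring
    rw [l1, swap]
    simp only [T, Finset.mul_sum, hb]
    rw [swap]
    refine Finset.sum_congr rfl fun n hn => ?_
    have h1 := mem_Icc.1 hn
    rw [← Finset.mul_sum, ← Finset.sum_mul, mul_comm, Icc_range m n h1.1, Icc_range m n h1.1]
    congr 1
    have := key hp (n - m) (m + a) (N - n + b)
    refine Eq.trans ?_ (this.trans ?_)
    · refine Finset.sum_congr rfl fun t _ => ?_
      congr 1 <;> omega
    · refine Finset.sum_congr rfl fun t ht => ?_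
      have := Finset.mem_range.1 ht
      congr 1 <;> omega

lemma AB (N : ℕ) (w : List L) (h1 : w.head? = some .y) (h2 : w.getLast? = some .x) :
    T (wA p N) N w 0 0 = T (wB p N) N w 0 0 := by
  rw [conn hp N w (Or.inr h2) 0 0 (Nat.zero_le _) (Or.inr h1), Finset.sum_eq_single 0]
  · simp [G, R, (Bn_zero hp _).2]
  · intro n _ hn
    obtain ⟨s, rfl⟩ := Nat.exists_eq_succ_of_ne_zero hn
    simp [G, R_succ']
  · simp

end

lemma T_congr (W W' : L → ℕ → ℕ → ℕ → K) (c : K) (N : ℕ)
    (h : ∀ u a b n, 1 ≤ a → 1 ≤ b → n ≤ N → W u a b n = c * W' u a b n) (w : List L) :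
    (w = [] ∨ w.getLast? = some .x) → ∀ a m : ℕ, (1 ≤ a ∨ w.head? = some .y) →
      T W N w a m = c ^ w.length * T W' N w a m := by
  induction w with
  | nil => intro _ a m _; simp [T]
  | cons u w ih =>
    intro hw a m ha
    have hl : (u :: w).getLast? = some .x := hw.resolve_left (by simp)
    have hw' : w = [] ∨ w.getLast? = some .x := by
      cases w with
      | nil => exact Or.inl rfl
      | cons v w => exact Or.inr (by simpa using hl)
    have hb : 1 ≤ (u :: w).count .x := List.count_pos_iff.2 (List.mem_of_getLast? hl)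
    have ha' : 1 ≤ a + cy u := by
      rcases ha with h | h
      · omega
      · have : u = .y := by simpa using h
        simp [cy, this]
    rw [T, T, Finset.mul_sum]
    refine Finset.sum_congr rfl fun n hn => ?_
    rw [h _ _ _ _ ha' hb (mem_Icc.1 hn).2, ih hw' _ _ (Or.inl ha'), List.length_cons]
    ring

lemma main (p : K) (h0 : p ≠ 0) (hp : ∀ m : ℕ, 1 - p ^ (m + 1) ≠ 0) (N : ℕ) (w : List L)
    (hw : w = [] ∨ (w.head? = some .y ∧ w.getLast? = some .x)) :
    Z p⁻¹ N w = (-1) ^ w.length * Z p N w := by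
  rcases hw with rfl | ⟨h1, h2⟩
  · simp [Z_eq_T, T]
  have hz : ∀ (q : K) (b n : ℕ), n ≤ N → q ^ ((n : ℤ) - N - b) = (q ^ (N - n + b))⁻¹ := by
    intro q b n hn
    rw [← zpow_natCast, ← zpow_neg]
    congr 1
    push_cast [hn]
    ring
  have hne : ∀ m : ℕ, 1 ≤ m → 1 - p ^ m ≠ 0 ∧ p ^ m - 1 ≠ 0 ∧ p ^ m ≠ 0 := by
    intro m hm
    obtain ⟨c, rfl⟩ : ∃ c, m = c + 1 := ⟨m - 1, by omega⟩
    exact ⟨hp c, fun e => hp c (by linear_combination -e), pow_ne_zero _ h0⟩
  rw [Z_eq_T, Z_eq_T, T_congr (wt p⁻¹ N) (wA p N) (-1) N ?_ w (Or.inr h2) 0 0 (Or.inr h1),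
    T_congr (wt p N) (wB p N) 1 N ?_ w (Or.inr h2) 0 0 (Or.inr h1), AB hp N w h1 h2]
  · simp
  · intro u a b n ha hb hn
    obtain ⟨a1, a2, a3⟩ := hne (n + a) (by omega)
    obtain ⟨b1, b2, b3⟩ := hne (N - n + b) (by omega)
    cases u <;> simp only [wt, wB, hz _ _ _ hn] <;> field_simp <;> ring
  · intro u a b n ha hb hn
    obtain ⟨a1, a2, a3⟩ := hne (n + a) (by omega)
    obtain ⟨b1, b2, b3⟩ := hne (N - n + b) (by omega)
    cases u <;> simp only [wt, wA, hz _ _ _ hn, inv_pow, inv_inv] <;> field_simp <;> ring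

theorem result (N : ℕ) (w : List L)
    (hw : w = [] ∨ (w.head? = some .y ∧ w.getLast? = some .x)) :
    Z (RatFunc.X : RatFunc ℚ)⁻¹ N w = (-1) ^ w.length * Z RatFunc.X N w ∧
    ∀ σ : RatFunc ℚ →+* RatFunc ℚ, σ RatFunc.X = RatFunc.X⁻¹ →
      σ (Z RatFunc.X N w) = (-1) ^ w.length * Z RatFunc.X N w := by
  have h := main (RatFunc.X : RatFunc ℚ) RatFunc.X_ne_zero (fun m => by
    have : (1 : RatFunc ℚ) - RatFunc.X ^ (m + 1)
        = algebraMap (Polynomial ℚ) (RatFunc ℚ) (1 - Polynomial.X ^ (m + 1)) := by simp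
    rw [this]
    refine RatFunc.algebraMap_ne_zero fun e => ?_
    have := congrArg (Polynomial.eval 0) e
    simp at this) N w hw
  refine ⟨h, fun σ hσ => ?_⟩
  rw [← h, ← hσ]
  unfold Z
  rw [map_sum]
  refine Finset.sum_congr rfl fun n _ => ?_
  rw [map_prod]
  refine Finset.prod_congr rfl fun j _ => ?_
  cases w.get j <;> simp [wt]

end Pool.Agent.Results.MP_aa79fc_nt.Inv
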